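import Pool.Agent.Lib.MP_8a6e71_co.Defs
import Pool.Agent.Lib.MP_8a6e71_co.Proof

set_option autoImplicit false

namespace Pool.Agent.Results.MP_8a6e71_co.NoDisjointCycles

open Pool.Agent.Lib.MP_8a6e71_co


/-- There is a non-separating signed digraph (on five vertices) in which no positive cycle is
disjoint from a negative cycle. -/
theorem result : ∃ G : SignedDigraph 5, NonSeparating G ∧
    ¬ ∃ C D : SignedCycle G, C.sign = 1 ∧ D.sign = -1 ∧
      Disjoint (Set.range C.vert) (Set.range D.vert) :=
  main_result

end Pool.Agent.Results.MP_8a6e71_co.NoDisjointCycles
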