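import Pool.Agent.Lib.MP_8a6e71_co.RSAll
import Pool.Agent.Lib.MP_8a6e71_co.RSGraph

namespace Pool.Agent.Results.MP_8a6e71_co.RespSeparation

open Pool.Agent.Lib.MP_8a6e71_co Pool.Agent.Lib.MP_8a6e71_co.RS

/-- Let `f` be a Boolean network, `G = G(f)` its signed interaction graph, `W` a set of vertices
meeting every positive cycle of `G`, and `s` a sign for every vertex such that, for any two distinct
vertices `u`, `w` of `W` in the same strong component of `G`, every simple path of `G` from `u` to
`w` without interior vertices in `W` has sign `s u * s w`. Then the asynchronous graph of `f` is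
separating. -/
theorem result {n : ℕ} (f : Conf n → Conf n) (W : Finset (Fin n)) (s : Fin n → ℤˣ)
    (hpos : ∀ C : SignedCycle (interactionGraph f), C.sign = 1 → ∃ k, C.vert k ∈ W)
    (hpath : ∀ u ∈ W, ∀ w ∈ W, u ≠ w → Reaches (interactionGraph f) w u →
      ∀ σ, SimplePath (interactionGraph f) (Finset.univ \ W) σ u w → σ = s u * s w) :
    Separating f :=
  final f W s hpos hpath

end Pool.Agent.Results.MP_8a6e71_co.RespSeparation
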