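import Pool.Agent.Lib.MP_8a6e71_co.T2Comp

namespace Pool.Agent.Results.MP_8a6e71_co.TwoLatches

open Pool.Agent.Lib.MP_8a6e71_co Pool.Agent.Lib.MP_8a6e71_co.RS

/-- Let `f` be a Boolean network, `G = G(f)` its signed interaction graph and `W` a set of vertices
such that every positive cycle of `G` meets `W`, no negative cycle of `G` meets `W`, and no three
distinct vertices of `W` lie in one strong component of `G`. Then the asynchronous graph of `f` is
separating. -/
theorem result {n : ℕ} (f : Conf n → Conf n) (W : Finset (Fin n))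
    (hpos : ∀ C : SignedCycle (interactionGraph f), C.sign = 1 → ∃ k, C.vert k ∈ W)
    (hneg : ∀ C : SignedCycle (interactionGraph f), C.sign = -1 → ∀ k, C.vert k ∉ W)
    (htwo : ∀ a ∈ W, ∀ b ∈ W, ∀ c ∈ W, a ≠ b → a ≠ c → b ≠ c →
      ¬ (Reaches (interactionGraph f) a b ∧ Reaches (interactionGraph f) b a ∧
        Reaches (interactionGraph f) a c ∧ Reaches (interactionGraph f) c a)) :
    Separating f := by
  refine T2.comp_final (fun V _ _ R U w v p q x0 => T2.TCp R U w v p q x0) f W ?_ hpos
    (fun a ha b hb c hc h1 h2 h3 g1 g2 g3 g4 => htwo a ha b hb c hc h1 h2 h3 ⟨g1, g2, g3, g4⟩)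
  rintro C ⟨k, hk⟩
  rcases Int.units_eq_one_or C.sign with h | h
  · exact h
  · exact absurd hk (hneg C h k)

end Pool.Agent.Results.MP_8a6e71_co.TwoLatches
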